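import Mathlib
import Pool.Agent.MP_9b0ed7_co.H41.Defs

set_option autoImplicit false

namespace Pool.Agent.MP_9b0ed7_co.H36

open Pool.Agent.MP_9b0ed7_co.H41

open Classical in
/-- `(H, lH)` is `(G, lG)`-saturated for new lowest edges: it avoids `G`, and adding any missing
edge with a label below all labels of `H` gives a graph containing `G`. -/
def MinSaturated {V W : Type} (H : SimpleGraph V) (lH : Sym2 V → ℝ)
    (G : SimpleGraph W) (lG : Sym2 W → ℝ) : Prop :=
  ¬ Contains H lH G lG ∧
    ∀ u v : V, u ≠ v → ¬ H.Adj u v → ∀ x : ℝ, (∀ e ∈ H.edgeSet, x < lH e) →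
      Contains (H ⊔ SimpleGraph.edge u v) (Function.update lH s(u, v) x) G lG

end Pool.Agent.MP_9b0ed7_co.H36
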