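import Mathlib
import Pool.Agent.MP_9b0ed7_co.H41.Basic

set_option autoImplicit false

namespace Pool.Agent.MP_9b0ed7_co.H36

open Pool.Agent.MP_9b0ed7_co.H41 SimpleGraph

variable {W : Type}

/-- A context: a `G`-free edge-ordered host with hubs `U` and an independent set `L`. -/
structure Ctx (G : SimpleGraph W) (lG : Sym2 W → ℝ) (H : SimpleGraph ℕ) (l : Sym2 ℕ → ℝ)
    (U L : Finset ℕ) : Prop where
  eo : EdgeOrdered H l
  free : ¬ WC H l G lG
  disj : ∀ x ∈ U, x ∉ L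
  indep : ∀ x ∈ L, ∀ y ∈ L, ¬ H.Adj x y

/-- The edges of `H` inside `Z` are edges of `H'` with the same label. -/
def Ext (H : SimpleGraph ℕ) (l : Sym2 ℕ → ℝ) (H' : SimpleGraph ℕ) (l' : Sym2 ℕ → ℝ)
    (Z : ℕ → Prop) : Prop :=
  ∀ x y, Z x → Z y → H.Adj x y → H'.Adj x y ∧ l' s(x, y) = l s(x, y)

theorem Ext.mono {H H' : SimpleGraph ℕ} {l l' : Sym2 ℕ → ℝ} {Z Z' : ℕ → Prop}
    (h : Ext H l H' l' Z) (hZ : ∀ x, Z' x → Z x) : Ext H l H' l' Z' :=
  fun x y hx hy hxy => h x y (hZ x hx) (hZ y hy) hxy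

theorem Ext.trans {H H' H'' : SimpleGraph ℕ} {l l' l'' : Sym2 ℕ → ℝ} {Z : ℕ → Prop}
    (h : Ext H l H' l' Z) (h' : Ext H' l' H'' l'' Z) : Ext H l H'' l'' Z :=
  fun x y hx hy hxy =>
    ⟨(h' x y hx hy (h x y hx hy hxy).1).1,
      (h' x y hx hy (h x y hx hy hxy).1).2.trans (h x y hx hy hxy).2⟩

/-- `π` places the pattern `R` of size `t` in `(H, l)`. -/
structure Pl (lG : Sym2 W → ℝ) (R : W × ℕ → W × ℕ → Prop) (t : ℕ) (π : W × ℕ → ℕ)
    (H : SimpleGraph ℕ) (l : Sym2 ℕ → ℝ) : Prop where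
  inj : ∀ p q, p.2 < t → q.2 < t → π p = π q → p = q
  adj : ∀ p q, p.2 < t → q.2 < t → R p q → H.Adj (π p) (π q)
  ord : ∀ p q p' q', p.2 < t → q.2 < t → p'.2 < t → q'.2 < t → R p q → R p' q' →
    lG s(p.1, q.1) < lG s(p'.1, q'.1) → l s(π p, π q) < l s(π p', π q')

theorem Pl.mono {lG : Sym2 W → ℝ} {R R' : W × ℕ → W × ℕ → Prop} {t t' : ℕ} {π : W × ℕ → ℕ}
    {H : SimpleGraph ℕ} {l : Sym2 ℕ → ℝ} (h : Pl lG R' t' π H l) (ht : t ≤ t')
    (hR : ∀ p q, p.2 < t → q.2 < t → R p q → R' p q ∨ R' q p) : Pl lG R t π H l := by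
  refine ⟨fun p q hp hq e => h.inj p q (hp.trans_le ht) (hq.trans_le ht) e, ?_, ?_⟩
  · intro p q hp hq hr
    rcases hR p q hp hq hr with h1 | h1
    · exact h.adj p q (hp.trans_le ht) (hq.trans_le ht) h1
    · exact (h.adj q p (hq.trans_le ht) (hp.trans_le ht) h1).symm
  · intro p q p' q' hp hq hp' hq' hr hr' hl
    have a1 := hp.trans_le ht
    have a2 := hq.trans_le ht
    have a3 := hp'.trans_le ht
    have a4 := hq'.trans_le ht
    rcases hR p q hp hq hr with h1 | h1 <;> rcases hR p' q' hp' hq' hr' with h2 | h2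
    · exact h.ord p q p' q' a1 a2 a3 a4 h1 h2 hl
    · rw [Sym2.eq_swap (a := π p')]
      rw [Sym2.eq_swap (a := p'.1)] at hl
      exact h.ord p q q' p' a1 a2 a4 a3 h1 h2 hl
    · rw [Sym2.eq_swap (a := π p)]
      rw [Sym2.eq_swap (a := p.1)] at hl
      exact h.ord q p p' q' a2 a1 a3 a4 h1 h2 hl
    · rw [Sym2.eq_swap (a := π p), Sym2.eq_swap (a := π p')]
      rw [Sym2.eq_swap (a := p.1), Sym2.eq_swap (a := p'.1)] at hl
      exact h.ord q p q' p' a2 a1 a4 a3 h1 h2 hl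

/-- The pattern `R` of size `t` is killed: with a bounded number of hubs there are contexts with
arbitrarily large independent sets in which every placement creates a copy of `G`. -/
def Kill (G : SimpleGraph W) (lG : Sym2 W → ℝ) (R : W × ℕ → W × ℕ → Prop) (t : ℕ) : Prop :=
  ∃ h : ℕ, ∀ F : ℕ, ∃ (H : SimpleGraph ℕ) (l : Sym2 ℕ → ℝ) (U L : Finset ℕ),
    Ctx G lG H l U L ∧ U.card ≤ h ∧ F ≤ L.card ∧
    ∀ (H' : SimpleGraph ℕ) (l' : Sym2 ℕ → ℝ) (π : W × ℕ → ℕ), EdgeOrdered H' l' →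
      (∀ p : W × ℕ, p.2 < t → π p ∈ L) →
      Ext H l H' l' (fun x => x ∈ U ∨ ∃ p : W × ℕ, p.2 < t ∧ π p = x) →
      Pl lG R t π H' l' → WC H' l' G lG

theorem Kill.mono {G : SimpleGraph W} {lG : Sym2 W → ℝ} {R R' : W × ℕ → W × ℕ → Prop}
    {t t' : ℕ} (h : Kill G lG R t) (ht : t ≤ t')
    (hR : ∀ p q, p.2 < t → q.2 < t → R p q → R' p q ∨ R' q p) : Kill G lG R' t' := by
  obtain ⟨h0, hh⟩ := h
  refine ⟨h0, fun F => ?_⟩
  obtain ⟨H, l, U, L, hc, hU, hL, hk⟩ := hh F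
  refine ⟨H, l, U, L, hc, hU, hL, fun H' l' π heo hπ hext hpl => ?_⟩
  refine hk H' l' π heo (fun p hp => hπ p (hp.trans_le ht)) (hext.mono ?_) (hpl.mono ht hR)
  rintro x (hx | ⟨p, hp, hx⟩)
  · exact Or.inl hx
  · exact Or.inr ⟨p, hp.trans_le ht, hx⟩

theorem not_kill_bot [Fintype W] (G : SimpleGraph W) (lG : Sym2 W → ℝ) (t : ℕ) :
    ¬ Kill G lG (fun p q => (⊥ : SimpleGraph W).Adj p.1 q.1) t := by
  classical
  rintro ⟨h0, hh⟩
  obtain ⟨H, l, U, L, hc, -, hL, hk⟩ := hh (Fintype.card (W × Fin t))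
  obtain ⟨f, hf⟩ := Function.Embedding.exists_of_card_le_finset hL
  let π : W × ℕ → ℕ := fun p => if h : p.2 < t then f (p.1, ⟨p.2, h⟩) else 0
  have hπ : ∀ (p : W × ℕ) (h : p.2 < t), π p = f (p.1, ⟨p.2, h⟩) := fun p h => dif_pos h
  refine hc.free (hk H l π hc.eo ?_ (fun x y _ _ hxy => ⟨hxy, rfl⟩) ⟨?_, ?_, ?_⟩)
  · intro p hp
    rw [hπ p hp]
    exact hf ⟨_, rfl⟩
  · intro p q hp hq e
    rw [hπ p hp, hπ q hq] at e
    have := f.injective e
    simp only [Prod.mk.injEq, Fin.mk.injEq] at this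
    exact Prod.ext this.1 this.2
  · intro p q _ _ hr
    exact hr.elim
  · intro p q p' q' _ _ _ _ hr
    exact hr.elim

theorem kill_self {G : SimpleGraph W} (lG : Sym2 W → ℝ) (hne : ∃ a b, G.Adj a b) :
    Kill G lG (fun p q => G.Adj p.1 q.1) 1 := by
  refine ⟨0, fun F => ⟨⊥, fun _ => 0, ∅, Finset.range F, ⟨?_, ?_, ?_, ?_⟩, by simp, by simp, ?_⟩⟩
  · intro e he
    simp at he
  · rintro ⟨f, hf⟩
    obtain ⟨a, b, hab⟩ := hne
    exact (hf.adj a b hab).elim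
  · simp
  · intro x _ y _ h
    exact h.elim
  · intro H' l' π _ _ _ hpl
    refine ⟨fun w => π (w, 0), ?_, ?_, ?_⟩
    · intro a _ b _ e
      have := hpl.inj (a, 0) (b, 0) Nat.one_pos Nat.one_pos e
      exact congrArg Prod.fst this
    · intro a b hab
      exact hpl.adj (a, 0) (b, 0) Nat.one_pos Nat.one_pos hab
    · intro a b c d hab hcd hl
      exact hpl.ord (a, 0) (b, 0) (c, 0) (d, 0) Nat.one_pos Nat.one_pos Nat.one_pos Nat.one_pos
        hab hcd hl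

/-- The blow-up of `K` together with all pairs between the first `j` copies of `a` and the
copies of `b`. -/
def Pat (K : SimpleGraph W) (a b : W) (j : ℕ) (p q : W × ℕ) : Prop :=
  K.Adj p.1 q.1 ∨ (p.1 = a ∧ q.1 = b ∧ p.2 < j)

/-- The critical pattern. -/
theorem exists_critical [Fintype W] {G : SimpleGraph W} {lG : Sym2 W → ℝ}
    (hG : EdgeOrdered G lG) (hne : ∃ a b, G.Adj a b) :
    ∃ (K : SimpleGraph W) (a b : W) (j s : ℕ), a ≠ b ∧ j < s ∧
      (∀ w w', K.Adj w w' → lG s(a, b) < lG s(w, w')) ∧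
      (∀ t, ¬ Kill G lG (Pat K a b j) t) ∧ Kill G lG (Pat K a b (j + 1)) s := by
  classical
  let S : Set (SimpleGraph W) :=
    {G' | G' ≤ G ∧ ∃ t, Kill G lG (fun p q => G'.Adj p.1 q.1) t}
  have hS : S.Nonempty := ⟨G, le_rfl, 1, kill_self lG hne⟩
  obtain ⟨G', ⟨hle, t, ht⟩, hmin⟩ := (wellFounded_lt (α := SimpleGraph W)).has_min S hS
  have hG' : G' ≠ ⊥ := by
    rintro rfl
    exact not_kill_bot G lG t ht
  have hE : G'.edgeSet.Nonempty := by
    rw [Set.nonempty_iff_ne_empty]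
    intro h
    exact hG' (edgeSet_eq_empty.1 h)
  obtain ⟨e, he, hemin⟩ := Set.exists_min_image G'.edgeSet lG (Set.toFinite _) hE
  induction e using Sym2.ind with
  | _ a b =>
  have hab : G'.Adj a b := he
  let K := G'.deleteEdges {s(a, b)}
  have hK : ∀ w w', K.Adj w w' ↔ G'.Adj w w' ∧ s(w, w') ≠ s(a, b) := by
    intro w w'
    simp only [K, deleteEdges_adj, Set.mem_singleton_iff]
  have hKlt : K < G' := by
    refine lt_of_le_of_ne (deleteEdges_le _) ?_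
    intro h
    have : K.Adj a b := h ▸ hab
    exact ((hK a b).1 this).2 rfl
  have h0 : ¬ ∃ t, Kill G lG (Pat K a b 0) t := by
    rintro ⟨t', ht'⟩
    refine hmin K ⟨hKlt.le.trans hle, t', ht'.mono le_rfl ?_⟩ hKlt
    rintro p q _ _ (h | h)
    · exact Or.inl h
    · exact absurd h.2.2 (Nat.not_lt_zero _)
  have h1 : ∃ j, ∃ t', Kill G lG (Pat K a b j) t' := by
    refine ⟨t, t, ht.mono le_rfl ?_⟩
    intro p q hp hq h
    by_cases he : s(p.1, q.1) = s(a, b)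
    · rcases Sym2.eq_iff.1 he with ⟨e1, e2⟩ | ⟨e1, e2⟩
      · exact Or.inl (Or.inr ⟨e1, e2, hp⟩)
      · exact Or.inr (Or.inr ⟨e2, e1, hq⟩)
    · exact Or.inl (Or.inl ((hK _ _).2 ⟨h, he⟩))
  have hpos : Nat.find h1 ≠ 0 := by
    intro h
    exact h0 (h ▸ Nat.find_spec h1)
  obtain ⟨j, hj⟩ := Nat.exists_eq_succ_of_ne_zero hpos
  obtain ⟨s, hs⟩ := Nat.find_spec h1
  rw [hj] at hs
  refine ⟨K, a, b, j, max s (j + 1), hab.ne, lt_of_lt_of_le (Nat.lt_succ_self j) (le_max_right _ _),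
    ?_, ?_, hs.mono (le_max_left _ _) fun p q _ _ h => Or.inl h⟩
  · intro w w' h
    obtain ⟨h2, h3⟩ := (hK w w').1 h
    refine lt_of_le_of_ne (hemin _ h2) fun h4 => h3 ?_
    exact (hG.eq_of (hle hab) (hle h2) h4).symm
  · intro t' ht'
    exact Nat.find_min h1 (by rw [hj]; exact Nat.lt_succ_self j) ⟨t', ht'⟩

end Pool.Agent.MP_9b0ed7_co.H36
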