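import Mathlib
import Pool.Agent.MP_9b0ed7_co.H36.Kill

set_option autoImplicit false

namespace Pool.Agent.MP_9b0ed7_co.H36

open Pool.Agent.MP_9b0ed7_co.H41 SimpleGraph

variable {W : Type}

open Classical in
/-- The number of adjacent pairs in `X × Y`. -/
noncomputable def cnt (H : SimpleGraph ℕ) (X Y : Finset ℕ) : ℕ :=
  ∑ x ∈ X, ∑ y ∈ Y, if H.Adj x y then 1 else 0

open Classical in
theorem cnt_comm (H : SimpleGraph ℕ) (X Y : Finset ℕ) : cnt H X Y = cnt H Y X := by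
  unfold cnt
  rw [Finset.sum_comm]
  refine Finset.sum_congr rfl fun y _ => Finset.sum_congr rfl fun x _ => ?_
  exact if_congr (H.adj_comm _ _) rfl rfl

theorem cnt_union_left (H : SimpleGraph ℕ) {X X' : Finset ℕ} (h : Disjoint X X')
    (Y : Finset ℕ) : cnt H (X ∪ X') Y = cnt H X Y + cnt H X' Y := by
  unfold cnt
  rw [Finset.sum_union h]

theorem cnt_union_right (H : SimpleGraph ℕ) (X : Finset ℕ) {Y Y' : Finset ℕ}
    (h : Disjoint Y Y') : cnt H X (Y ∪ Y') = cnt H X Y + cnt H X Y' := by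
  rw [cnt_comm, cnt_union_left H h, cnt_comm H Y, cnt_comm H Y']

open Classical in
theorem cnt_le_of (H : SimpleGraph ℕ) {X Y : Finset ℕ} {k : ℕ}
    (h : ∀ x ∈ X, (Y.filter (H.Adj x)).card ≤ k) : cnt H X Y ≤ X.card * k := by
  unfold cnt
  rw [← smul_eq_mul]
  refine Finset.sum_le_card_nsmul _ _ _ fun x hx => ?_
  rw [← Finset.card_filter]
  exact h x hx

theorem cnt_le_mul (H : SimpleGraph ℕ) (X Y : Finset ℕ) : cnt H X Y ≤ X.card * Y.card := by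
  classical
  exact cnt_le_of H fun x _ => Finset.card_filter_le _ _

/-- `(H, l)` arises from `(H₁, l₁)` inside `S` by adding lower edges, and has no placement of
`R` inside `S`. -/
structure Good (lG : Sym2 W → ℝ) (R : W × ℕ → W × ℕ → Prop) (s : ℕ)
    (H₁ : SimpleGraph ℕ) (l₁ : Sym2 ℕ → ℝ) (H : SimpleGraph ℕ) (l : Sym2 ℕ → ℝ)
    (S : Finset ℕ) : Prop where
  ext : Ext H₁ l₁ H l (· ∈ S)
  low : ∀ x y x' y', x ∈ S → y ∈ S → x' ∈ S → y' ∈ S → H.Adj x y → ¬ H₁.Adj x y →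
    H₁.Adj x' y' → l s(x, y) < l s(x', y')
  nopl : ∀ π : W × ℕ → ℕ, (∀ p : W × ℕ, p.2 < s → π p ∈ S) → ¬ Pl lG R s π H l

theorem Good.restrict {lG : Sym2 W → ℝ} {R : W × ℕ → W × ℕ → Prop} {s : ℕ}
    {H₀ H₁ H : SimpleGraph ℕ} {l₀ l₁ l : Sym2 ℕ → ℝ} {S S' : Finset ℕ}
    (h : Good lG R s H₁ l₁ H l S) (hS : S' ⊆ S) (he : Ext H₀ l₀ H₁ l₁ (· ∈ S'))
    (hb : ∀ x y, x ∈ S' → y ∈ S' → H₁.Adj x y → H₀.Adj x y) : Good lG R s H₀ l₀ H l S' :=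
  ⟨he.trans (h.ext.mono fun _ hx => hS hx),
    fun x y x' y' hx hy hx' hy' h1 h2 h3 => h.low x y x' y' (hS hx) (hS hy) (hS hx') (hS hy') h1
      (fun h4 => h2 (hb x y hx hy h4)) (he x' y' hx' hy' h3).1,
    fun π hπ => h.nopl π fun p hp => hS (hπ p hp)⟩

/-- A robust pattern has a `G`-free placement without superfluous edges. -/
theorem robust_trim {G : SimpleGraph W} {lG : Sym2 W → ℝ} {R : W × ℕ → W × ℕ → Prop} {t : ℕ}
    (hr : ¬ Kill G lG R t) (h : ℕ) :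
    ∃ F : ℕ, ∀ (H : SimpleGraph ℕ) (l : Sym2 ℕ → ℝ) (U L : Finset ℕ), Ctx G lG H l U L →
      U.card ≤ h → F ≤ L.card →
      ∃ (H' : SimpleGraph ℕ) (l' : Sym2 ℕ → ℝ) (π : W × ℕ → ℕ), EdgeOrdered H' l' ∧
        ¬ WC H' l' G lG ∧ (∀ p : W × ℕ, p.2 < t → π p ∈ L) ∧
        Ext H l H' l' (fun x => x ∈ U ∨ ∃ p : W × ℕ, p.2 < t ∧ π p = x) ∧
        Pl lG R t π H' l' ∧
        ∀ x y, H'.Adj x y → H.Adj x y ∨
          ∃ p q : W × ℕ, p.2 < t ∧ q.2 < t ∧ (R p q ∨ R q p) ∧ π p = x ∧ π q = y := by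
  by_contra hcon
  apply hr
  refine ⟨h, fun F => ?_⟩
  by_contra hF
  apply hcon
  refine ⟨F, fun H l U L hc hU hL => ?_⟩
  by_contra hno
  apply hF
  refine ⟨H, l, U, L, hc, hU, hL, fun H' l' π heo hπ hext hpl => ?_⟩
  by_contra hfree
  apply hno
  let I : SimpleGraph ℕ := SimpleGraph.fromRel fun x y =>
    ∃ p q : W × ℕ, p.2 < t ∧ q.2 < t ∧ R p q ∧ π p = x ∧ π q = y
  refine ⟨H' ⊓ (H ⊔ I), l', π, heo.mono inf_le_left, ?_, hπ, ?_, ⟨hpl.inj, ?_, hpl.ord⟩, ?_⟩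
  · intro hw
    exact hfree (hw.emb (φ := id) ⟨Function.injective_id, fun _ _ h => h.1,
      fun _ _ _ _ _ _ h => h⟩)
  · intro x y hx hy hxy
    exact ⟨⟨(hext x y hx hy hxy).1, Or.inl hxy⟩, (hext x y hx hy hxy).2⟩
  · intro p q hp hq hpq
    have := hpl.adj p q hp hq hpq
    refine ⟨this, Or.inr ?_⟩
    rw [SimpleGraph.fromRel_adj]
    exact ⟨this.ne, Or.inl ⟨p, q, hp, hq, hpq, rfl, rfl⟩⟩
  · rintro x y ⟨-, h1 | h1⟩
    · exact Or.inl h1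
    · rw [SimpleGraph.fromRel_adj] at h1
      rcases h1.2 with ⟨p, q, hp, hq, hpq, e1, e2⟩ | ⟨p, q, hp, hq, hpq, e1, e2⟩
      · exact Or.inr ⟨p, q, hp, hq, Or.inl hpq, e1, e2⟩
      · exact Or.inr ⟨q, p, hq, hp, Or.inr hpq, e2, e1⟩

/-- A spare copy of `a` with `s` lower neighbours among the copies of `b` gives a placement of the
next pattern. -/
theorem upgrade {lG : Sym2 W → ℝ} {K : SimpleGraph W} {a b : W} {j s t : ℕ} (hab : a ≠ b)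
    (hlow : ∀ w w', K.Adj w w' → lG s(a, b) < lG s(w, w')) (hst : s ≤ t)
    {π : W × ℕ → ℕ} {H₀ H₁ H : SimpleGraph ℕ} {l₀ l₁ l : Sym2 ℕ → ℝ} {S : Finset ℕ}
    (hpl : Pl lG (Pat K a b j) t π H₀ l₀) (hext : Ext H₀ l₀ H₁ l₁ (· ∈ S))
    (hg : Good lG (Pat K a b (j + 1)) s H₁ l₁ H l S)
    {i₀ : ℕ} (hi : s ≤ i₀) (hit : i₀ < t) {k : ℕ → ℕ} (hk : ∀ i < s, k i < t)
    (hkinj : ∀ i < s, ∀ i' < s, k i = k i' → i = i')
    (hT : ∀ p : W × ℕ, p.1 ≠ b → p.2 < s → π p ∈ S) (hA : π (a, i₀) ∈ S)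
    (hB : ∀ i < s, π (b, k i) ∈ S) (hadj : ∀ i < s, H.Adj (π (a, i₀)) (π (b, k i)))
    (hn : ∀ i < s, ¬ H₁.Adj (π (a, i₀)) (π (b, k i))) : False := by
  classical
  let ρ : W × ℕ → W × ℕ := fun p =>
    if p.1 = b then (b, k p.2) else if p = (a, j) then (a, i₀) else p
  have hρ : ∀ p : W × ℕ, (p.1 = b ∧ ρ p = (b, k p.2)) ∨ (p = (a, j) ∧ ρ p = (a, i₀)) ∨
      (p.1 ≠ b ∧ p ≠ (a, j) ∧ ρ p = p) := by
    intro p
    by_cases h1 : p.1 = b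
    · exact Or.inl ⟨h1, if_pos h1⟩
    · by_cases h2 : p = (a, j)
      · exact Or.inr (Or.inl ⟨h2, (if_neg h1).trans (if_pos h2)⟩)
      · exact Or.inr (Or.inr ⟨h1, h2, (if_neg h1).trans (if_neg h2)⟩)
  have hρ1 : ∀ p : W × ℕ, (ρ p).1 = p.1 := by
    intro p
    rcases hρ p with ⟨h1, h2⟩ | ⟨h1, h2⟩ | ⟨-, -, h2⟩
    · rw [h2, h1]
    · rw [h2, h1]
    · rw [h2]
  have hρt : ∀ p : W × ℕ, p.2 < s → (ρ p).2 < t := by
    intro p hp
    rcases hρ p with ⟨-, h2⟩ | ⟨-, h2⟩ | ⟨-, -, h2⟩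
    · rw [h2]; exact hk _ hp
    · rw [h2]; exact hit
    · rw [h2]; exact hp.trans_le hst
  have hρS : ∀ p : W × ℕ, p.2 < s → π (ρ p) ∈ S := by
    intro p hp
    rcases hρ p with ⟨-, h2⟩ | ⟨-, h2⟩ | ⟨h1, -, h2⟩
    · rw [h2]; exact hB _ hp
    · rw [h2]; exact hA
    · rw [h2]; exact hT p h1 hp
  have hρi : ∀ p q : W × ℕ, p.2 < s → q.2 < s → ρ p = ρ q → p = q := by
    intro p q hp hq e
    have e1 : p.1 = q.1 := by rw [← hρ1 p, ← hρ1 q, e]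
    refine Prod.ext e1 ?_
    have e2 := congrArg Prod.snd e
    rcases hρ p with ⟨h1, h2⟩ | ⟨h1, h2⟩ | ⟨h1, h1', h2⟩ <;>
      rcases hρ q with ⟨g1, g2⟩ | ⟨g1, g2⟩ | ⟨g1, g1', g2⟩ <;> rw [h2, g2] at e2
    · exact hkinj _ hp _ hq e2
    · exact absurd (by rw [← h1, e1, g1]) hab
    · exact absurd (e1 ▸ h1) g1
    · exact absurd (by rw [← g1, ← e1, h1]) hab
    · rw [h1, g1]
    · exact absurd (e2 ▸ hi : s ≤ q.2) (not_le.2 hq)
    · exact absurd (e1 ▸ g1) h1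
    · exact absurd (e2 ▸ hi : s ≤ p.2) (not_le.2 hp)
    · exact e2
  have hcase : ∀ p q : W × ℕ, Pat K a b (j + 1) p q →
      Pat K a b j (ρ p) (ρ q) ∨ (p.1 = a ∧ q.1 = b ∧ ρ p = (a, i₀) ∧ ρ q = (b, k q.2)) := by
    rintro p q (h | ⟨h1, h2, h3⟩)
    · left; left
      rwa [hρ1, hρ1]
    · rcases hρ p with ⟨g1, -⟩ | ⟨g1, g2⟩ | ⟨-, g1, g2⟩
      · exact absurd (h1.symm.trans g1) hab
      · exact Or.inr ⟨h1, h2, g2, if_pos h2⟩
      · left; right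
        refine ⟨(hρ1 p).trans h1, (hρ1 q).trans h2, ?_⟩
        rw [g2]
        refine lt_of_le_of_ne (Nat.lt_succ_iff.1 h3) fun h4 => g1 (Prod.ext h1 h4)
  have hold : ∀ p q : W × ℕ, p.2 < s → q.2 < s → Pat K a b j (ρ p) (ρ q) →
      H₁.Adj (π (ρ p)) (π (ρ q)) ∧ H.Adj (π (ρ p)) (π (ρ q)) ∧
        l s(π (ρ p), π (ρ q)) = l₀ s(π (ρ p), π (ρ q)) := by
    intro p q hp hq h
    have h0 := hpl.adj _ _ (hρt p hp) (hρt q hq) h
    have h1 := hext _ _ (hρS p hp) (hρS q hq) h0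
    have h2 := hg.ext _ _ (hρS p hp) (hρS q hq) h1.1
    exact ⟨h1.1, h2.1, h2.2.trans h1.2⟩
  refine hg.nopl (fun p => π (ρ p)) hρS ⟨?_, ?_, ?_⟩
  · intro p q hp hq e
    exact hρi p q hp hq (hpl.inj _ _ (hρt p hp) (hρt q hq) e)
  · intro p q hp hq h
    rcases hcase p q h with h1 | ⟨-, -, h1, h2⟩
    · exact (hold p q hp hq h1).2.1
    · rw [h1, h2]
      exact hadj _ hq
  · intro p q p' q' hp hq hp' hq' h h' hl
    rcases hcase p' q' h' with g1 | ⟨g1, g2, -, -⟩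
    · rcases hcase p q h with h1 | ⟨-, -, h1, h2⟩
      · rw [(hold p q hp hq h1).2.2, (hold p' q' hp' hq' g1).2.2]
        refine hpl.ord _ _ _ _ (hρt p hp) (hρt q hq) (hρt p' hp') (hρt q' hq') h1 g1 ?_
        rwa [hρ1, hρ1, hρ1, hρ1]
      · refine hg.low _ _ _ _ (hρS p hp) (hρS q hq) (hρS p' hp') (hρS q' hq') ?_ ?_
          (hold p' q' hp' hq' g1).1
        · rw [h1, h2]
          exact hadj _ hq
        · rw [h1, h2]
          exact hn _ hq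
    · exfalso
      rw [g1, g2] at hl
      rcases h with h | ⟨h1, h2, -⟩
      · exact lt_asymm hl (hlow _ _ h)
      · rw [h1, h2] at hl
        exact lt_irrefl _ hl

end Pool.Agent.MP_9b0ed7_co.H36
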