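import Mathlib
import Pool.Agent.MP_9b0ed7_co.H36.Up

set_option autoImplicit false

namespace Pool.Agent.MP_9b0ed7_co.H36

open Pool.Agent.MP_9b0ed7_co.H41 SimpleGraph

variable {W : Type}

/-- The inductive statement. -/
def Q (G : SimpleGraph W) (lG : Sym2 W → ℝ) (R : W × ℕ → W × ℕ → Prop) (s D d : ℕ) : Prop :=
  ∀ h : ℕ, ∃ F : ℕ, ∀ n < 2 ^ d, ∀ (H : SimpleGraph ℕ) (l : Sym2 ℕ → ℝ) (U L : Finset ℕ),
    Ctx G lG H l U L → U.card ≤ h → F ≤ L.card →
    ∃ (S : Finset ℕ) (H₁ : SimpleGraph ℕ) (l₁ : Sym2 ℕ → ℝ), S ⊆ L ∧ S.card = n ∧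
      EdgeOrdered H₁ l₁ ∧ ¬ WC H₁ l₁ G lG ∧ Ext H l H₁ l₁ (fun x => x ∈ U ∨ x ∈ S) ∧
      (∀ x y, x ∉ L → H₁.Adj x y → H.Adj x y) ∧
      ∀ (H' : SimpleGraph ℕ) (l' : Sym2 ℕ → ℝ), Good lG R s H₁ l₁ H' l' S →
        cnt H' S S ≤ D * n * d

theorem Q_zero (G : SimpleGraph W) (lG : Sym2 W → ℝ) (R : W × ℕ → W × ℕ → Prop) (s D : ℕ) :
    Q G lG R s D 0 := by
  intro h
  refine ⟨0, fun n hn H l U L hc _ _ => ⟨∅, H, l, Finset.empty_subset _, ?_, hc.eo, hc.free,
    fun x y _ _ h => ⟨h, rfl⟩, fun _ _ _ h => h, fun H' l' _ => ?_⟩⟩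
  · simp only [pow_zero, Nat.lt_one_iff] at hn
    simp [hn]
  · simp [cnt]

theorem arith {c s nA nB n d x1 x2 x3 x4 x5 : ℕ} (hn : n = c + nA + nB)
    (h1 : x1 ≤ c * n) (h2 : x2 ≤ (nA + nB) * c) (h3 : x3 ≤ (2 * c + 2 * s) * nA * d)
    (h4 : x4 ≤ (2 * c + 2 * s) * nB * d) (h5 : x5 ≤ nA * s) :
    x1 + (x2 + (x3 + x5 + (x5 + x4))) ≤ (2 * c + 2 * s) * n * (d + 1) := by
  subst hn
  nlinarith [Nat.zero_le (c * c), Nat.zero_le (c * s), Nat.zero_le (c * c * d),
    Nat.zero_le (s * c * d), Nat.zero_le (s * nB)]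

theorem Q_succ [Fintype W] [DecidableEq W] {G K : SimpleGraph W} {lG : Sym2 W → ℝ} {a b : W}
    {j s d : ℕ} (hab : a ≠ b) (hjs : j < s)
    (hlow : ∀ w w', K.Adj w w' → lG s(a, b) < lG s(w, w'))
    (hrob : ∀ t, ¬ Kill G lG (Pat K a b j) t) {c : ℕ}
    (hcdef : c = ((Finset.univ.filter (· ≠ b)) ×ˢ Finset.range s).card)
    (ih : Q G lG (Pat K a b (j + 1)) s (2 * c + 2 * s) d) :
    Q G lG (Pat K a b (j + 1)) s (2 * c + 2 * s) (d + 1) := by
  classical
  intro h
  obtain ⟨FB, hFB⟩ := ih (h + c + 2 ^ d)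
  obtain ⟨FA, hFA⟩ := ih (h + c + FB)
  obtain ⟨F, hF⟩ := robust_trim (hrob (s + FA + FB)) h
  refine ⟨max F c, fun n hn H l U L hc hU hL => ?_⟩
  have hcpos : 0 < c := by
    rw [hcdef, Finset.card_pos]
    exact ⟨(a, 0), by simp [hab]; omega⟩
  by_cases hnc : n ≤ c
  · obtain ⟨S, hS, hSc⟩ := Finset.exists_subset_card_eq
      (hnc.trans ((le_max_right F c).trans hL))
    refine ⟨S, H, l, hS, hSc, hc.eo, hc.free, fun x y _ _ h => ⟨h, rfl⟩, fun _ _ _ h => h,
      fun H' l' _ => (cnt_le_mul H' S S).trans ?_⟩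
    rw [hSc]
    nlinarith [Nat.zero_le (c * n), Nat.zero_le (s * n), Nat.zero_le (c * n * d),
      Nat.zero_le (s * n * d), Nat.mul_le_mul_right n hnc]
  obtain ⟨H0, l0, π, heo, hfree, hπ, hext, hpl, htrim⟩ :=
    hF H l U L hc hU ((le_max_left F c).trans hL)
  set T : Finset ℕ := ((Finset.univ.filter (· ≠ b)) ×ˢ Finset.range s).image π with hT
  set A : Finset ℕ := (Finset.range FA).image (fun i => π (a, s + i)) with hA
  set B : Finset ℕ := (Finset.range FB).image (fun i => π (b, i)) with hB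
  have hTm : ∀ x, x ∈ T ↔ ∃ p : W × ℕ, p.1 ≠ b ∧ p.2 < s ∧ π p = x := by
    intro x
    simp only [hT, Finset.mem_image, Finset.mem_product, Finset.mem_filter, Finset.mem_univ,
      true_and, Finset.mem_range, and_assoc]
  have hAm : ∀ x, x ∈ A ↔ ∃ i, i < FA ∧ π (a, s + i) = x := by
    intro x
    simp only [hA, Finset.mem_image, Finset.mem_range]
  have hBm : ∀ x, x ∈ B ↔ ∃ i, i < FB ∧ π (b, i) = x := by
    intro x
    simp only [hB, Finset.mem_image, Finset.mem_range]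
  have hTc : T.card = c := by
    rw [hcdef, hT]
    refine Finset.card_image_of_injOn fun p hp q hq e => ?_
    simp only [Finset.coe_product, Set.mem_prod, Finset.coe_range, Set.mem_Iio] at hp hq
    exact hpl.inj p q (by omega) (by omega) e
  have hAc : A.card = FA := by
    rw [hA, Finset.card_image_of_injOn, Finset.card_range]
    intro i hi i' hi' e
    simp only [Finset.coe_range, Set.mem_Iio] at hi hi'
    have := hpl.inj (a, s + i) (a, s + i') (by simp only; omega) (by simp only; omega) e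
    simpa using this
  have hBc : B.card = FB := by
    rw [hB, Finset.card_image_of_injOn, Finset.card_range]
    intro i hi i' hi' e
    simp only [Finset.coe_range, Set.mem_Iio] at hi hi'
    have := hpl.inj (b, i) (b, i') (by simp only; omega) (by simp only; omega) e
    simpa using this
  have hTI : ∀ x ∈ T, ∃ p : W × ℕ, p.2 < s + FA + FB ∧ π p = x := by
    intro x hx
    obtain ⟨p, -, h2, h3⟩ := (hTm x).1 hx
    exact ⟨p, by omega, h3⟩
  have hAI : ∀ x ∈ A, ∃ p : W × ℕ, p.2 < s + FA + FB ∧ π p = x := by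
    intro x hx
    obtain ⟨i, h2, h3⟩ := (hAm x).1 hx
    exact ⟨_, by simp only; omega, h3⟩
  have hBI : ∀ x ∈ B, ∃ p : W × ℕ, p.2 < s + FA + FB ∧ π p = x := by
    intro x hx
    obtain ⟨i, h2, h3⟩ := (hBm x).1 hx
    exact ⟨_, by simp only; omega, h3⟩
  have hIL : ∀ x, (∃ p : W × ℕ, p.2 < s + FA + FB ∧ π p = x) → x ∈ L := by
    rintro x ⟨p, hp, rfl⟩
    exact hπ p hp
  have hTA : ∀ x ∈ T, x ∉ A := by
    intro x hx hx'
    obtain ⟨p, -, h2, h3⟩ := (hTm x).1 hx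
    obtain ⟨i, g2, g3⟩ := (hAm x).1 hx'
    have := hpl.inj p (a, s + i) (by omega) (by simp only; omega) (h3.trans g3.symm)
    rw [this] at h2
    simp only at h2
    omega
  have hTB : ∀ x ∈ T, x ∉ B := by
    intro x hx hx'
    obtain ⟨p, h1, h2, h3⟩ := (hTm x).1 hx
    obtain ⟨i, g2, g3⟩ := (hBm x).1 hx'
    have := hpl.inj p (b, i) (by omega) (by simp only; omega) (h3.trans g3.symm)
    exact h1 (by rw [this])
  have hAB : ∀ x ∈ A, x ∉ B := by
    intro x hx hx'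
    obtain ⟨i', h2, h3⟩ := (hAm x).1 hx
    obtain ⟨i, g2, g3⟩ := (hBm x).1 hx'
    have := hpl.inj (a, s + i') (b, i) (by simp only; omega) (by simp only; omega)
      (h3.trans g3.symm)
    exact hab (congrArg Prod.fst this)
  have hKab : ∀ w w', (w = a ∨ w = b) → (w' = a ∨ w' = b) → ¬ K.Adj w w' := by
    rintro w w' (rfl | rfl) (rfl | rfl) hk
    · exact hk.ne rfl
    · exact lt_irrefl _ (hlow _ _ hk)
    · exact lt_irrefl _ (hlow _ _ hk.symm)
    · exact hk.ne rfl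
  have hform : ∀ x, (x ∈ A ∨ x ∈ B) → ∃ p : W × ℕ, p.2 < s + FA + FB ∧ π p = x ∧
      ((p.1 = a ∧ s ≤ p.2) ∨ p.1 = b) := by
    rintro x (hx | hx)
    · obtain ⟨i, h2, h3⟩ := (hAm x).1 hx
      exact ⟨_, by simp only; omega, h3, Or.inl ⟨rfl, Nat.le_add_right _ _⟩⟩
    · obtain ⟨i, h2, h3⟩ := (hBm x).1 hx
      exact ⟨_, by simp only; omega, h3, Or.inr rfl⟩
  have hnoPat : ∀ p q : W × ℕ, ((p.1 = a ∧ s ≤ p.2) ∨ p.1 = b) →
      ((q.1 = a ∧ s ≤ q.2) ∨ q.1 = b) → ¬ Pat K a b j p q := by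
    rintro p q hp hq (hk | ⟨h1, -, h3⟩)
    · exact hKab _ _ (hp.imp_left And.left) (hq.imp_left And.left) hk
    · rcases hp with hp | hp
      · omega
      · exact hab (h1.symm.trans hp)
  have hno : ∀ x y, (x ∈ A ∨ x ∈ B) → (y ∈ A ∨ y ∈ B) → ¬ H0.Adj x y := by
    intro x y hx hy hxy
    obtain ⟨p, hp, rfl, hp'⟩ := hform x hx
    obtain ⟨q, hq, rfl, hq'⟩ := hform y hy
    rcases htrim _ _ hxy with h1 | ⟨p', q', g1, g2, g3, g4, g5⟩
    · exact hc.indep _ (hπ p hp) _ (hπ q hq) h1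
    · obtain rfl := hpl.inj _ _ g1 hp g4
      obtain rfl := hpl.inj _ _ g2 hq g5
      rcases g3 with g3 | g3
      · exact hnoPat _ _ hp' hq' g3
      · exact hnoPat _ _ hq' hp' g3
  have ctxA : Ctx G lG H0 l0 (U ∪ T ∪ B) A := by
    refine ⟨heo, hfree, ?_, fun x hx y hy => hno x y (Or.inl hx) (Or.inl hy)⟩
    intro x hx hxA
    rcases Finset.mem_union.1 hx with hx | hx
    · rcases Finset.mem_union.1 hx with hx | hx
      · exact hc.disj x hx (hIL x (hAI x hxA))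
      · exact hTA x hx hxA
    · exact hAB x hxA hx
  have h2d : 2 ^ (d + 1) = 2 * 2 ^ d := by rw [pow_succ, mul_comm]
  obtain ⟨SA, HA, lA, hSA, hSAc, heoA, hfreeA, hextA, hbackA, hcntA⟩ :=
    hFA ((n - c) / 2) (by omega) H0 l0 (U ∪ T ∪ B) A ctxA
      ((Finset.card_union_le _ _).trans (by
        have := Finset.card_union_le U T
        omega)) hAc.ge
  have ctxB : Ctx G lG HA lA (U ∪ T ∪ SA) B := by
    refine ⟨heoA, hfreeA, ?_, fun x hx y hy hxy =>
      hno x y (Or.inr hx) (Or.inr hy) (hbackA x y (fun h' => hAB x h' hx) hxy)⟩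
    intro x hx hxB
    rcases Finset.mem_union.1 hx with hx | hx
    · rcases Finset.mem_union.1 hx with hx | hx
      · exact hc.disj x hx (hIL x (hBI x hxB))
      · exact hTB x hx hxB
    · exact hAB x (hSA hx) hxB
  obtain ⟨SB, HB, lB, hSB, hSBc, heoB, hfreeB, hextB, hbackB, hcntB⟩ :=
    hFB (n - c - (n - c) / 2) (by omega) HA lA (U ∪ T ∪ SA) B ctxB
      ((Finset.card_union_le _ _).trans (by
        have := Finset.card_union_le U T
        omega)) hBc.ge
  have d1 : Disjoint SA SB := Finset.disjoint_left.2 fun x hx hx' => hAB x (hSA hx) (hSB hx')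
  have d2 : Disjoint T (SA ∪ SB) := by
    refine Finset.disjoint_left.2 fun x hx hx' => ?_
    rcases Finset.mem_union.1 hx' with h1 | h1
    · exact hTA x hx (hSA h1)
    · exact hTB x hx (hSB h1)
  have hmem : ∀ x, x ∈ T ∪ (SA ∪ SB) ↔ x ∈ T ∨ x ∈ SA ∨ x ∈ SB := by
    intro x
    simp only [Finset.mem_union]
  have hSI : ∀ x ∈ T ∪ (SA ∪ SB), ∃ p : W × ℕ, p.2 < s + FA + FB ∧ π p = x := by
    intro x hx
    rcases (hmem x).1 hx with h1 | h1 | h1
    · exact hTI x h1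
    · exact hAI x (hSA h1)
    · exact hBI x (hSB h1)
  have hcard : (T ∪ (SA ∪ SB)).card = n := by
    rw [Finset.card_union_of_disjoint d2, Finset.card_union_of_disjoint d1]
    omega
  have hext0 : Ext H0 l0 HB lB (fun x => x ∈ U ∨ x ∈ T ∪ (SA ∪ SB)) := by
    refine (hextA.mono ?_).trans (hextB.mono ?_)
    · intro x hx
      simp only [Finset.mem_union] at hx ⊢
      rcases hx with h1 | h1 | h1 | h1
      · exact Or.inl (Or.inl (Or.inl h1))
      · exact Or.inl (Or.inl (Or.inr h1))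
      · exact Or.inr h1
      · exact Or.inl (Or.inr (hSB h1))
    · intro x hx
      simp only [Finset.mem_union] at hx ⊢
      rcases hx with h1 | h1 | h1 | h1
      · exact Or.inl (Or.inl (Or.inl h1))
      · exact Or.inl (Or.inl (Or.inr h1))
      · exact Or.inl (Or.inr h1)
      · exact Or.inr h1
  refine ⟨T ∪ (SA ∪ SB), HB, lB, fun x hx => hIL x (hSI x hx), hcard, heoB, hfreeB,
    (hext.mono fun x hx => hx.imp_right (hSI x)).trans hext0, ?_, ?_⟩
  · intro x y hx hxy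
    have h1 := hbackA x y (fun h' => hx (hIL x (hAI x h')))
      (hbackB x y (fun h' => hx (hIL x (hBI x h'))) hxy)
    rcases htrim x y h1 with h2 | ⟨p, q, g1, -, -, g4, -⟩
    · exact h2
    · exact absurd (hIL x ⟨p, g1, g4⟩) hx
  intro H' l' hg
  have gA : Good lG (Pat K a b (j + 1)) s HA lA H' l' SA :=
    hg.restrict (fun x hx => (hmem x).2 (Or.inr (Or.inl hx)))
      (hextB.mono fun x hx => Or.inl (Finset.mem_union_right _ hx))
      fun x y hx _ hxy => hbackB x y (hAB x (hSA hx)) hxy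
  have gB : Good lG (Pat K a b (j + 1)) s HB lB H' l' SB :=
    hg.restrict (fun x hx => (hmem x).2 (Or.inr (Or.inr hx))) (fun x y _ _ h => ⟨h, rfl⟩)
      fun _ _ _ _ h => h
  have hcross : cnt H' SA SB ≤ SA.card * s := by
    refine cnt_le_of H' fun u hu => ?_
    by_contra hbig
    obtain ⟨i, hi, rfl⟩ := (hAm u).1 (hSA hu)
    let N := (Finset.range FB).filter fun k => π (b, k) ∈ SB ∧ H'.Adj (π (a, s + i)) (π (b, k))
    have hN : Fintype.card (Fin s) ≤ N.card := by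
      rw [Fintype.card_fin]
      refine (not_le.1 hbig).le.trans ((Finset.card_le_card ?_).trans
        (Finset.card_image_le (s := N) (f := fun k => π (b, k))))
      intro y hy
      obtain ⟨h1, h2⟩ := Finset.mem_filter.1 hy
      obtain ⟨k, hk, rfl⟩ := (hBm y).1 (hSB h1)
      exact Finset.mem_image.2 ⟨k, Finset.mem_filter.2 ⟨Finset.mem_range.2 hk, h1, h2⟩, rfl⟩
    obtain ⟨f, hf⟩ := Function.Embedding.exists_of_card_le_finset hN
    let k : ℕ → ℕ := fun i' => if h : i' < s then f ⟨i', h⟩ else 0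
    have hk : ∀ (i' : ℕ) (h : i' < s), k i' = f ⟨i', h⟩ := fun i' h => dif_pos h
    have hkN : ∀ i' < s, k i' < FB ∧ π (b, k i') ∈ SB ∧
        H'.Adj (π (a, s + i)) (π (b, k i')) := by
      intro i' h'
      have : k i' ∈ N := by
        rw [hk i' h']
        exact hf ⟨_, rfl⟩
      obtain ⟨h1, h2⟩ := Finset.mem_filter.1 this
      exact ⟨Finset.mem_range.1 h1, h2⟩
    refine upgrade (i₀ := s + i) (k := k) hab hlow (by omega) hpl
      (hext0.mono fun x hx => Or.inr hx) hg (Nat.le_add_right _ _) (by omega)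
      (fun i' h' => by have := (hkN i' h').1; omega) ?_ ?_ ((hmem _).2 (Or.inr (Or.inl hu)))
      (fun i' h' => (hmem _).2 (Or.inr (Or.inr (hkN i' h').2.1)))
      (fun i' h' => (hkN i' h').2.2) ?_
    · intro i1 h1 i2 h2 e
      rw [hk i1 h1, hk i2 h2] at e
      exact congrArg Fin.val (f.injective e)
    · intro p h1 h2
      exact (hmem _).2 (Or.inl ((hTm _).2 ⟨p, h1, h2, rfl⟩))
    · intro i' h' hadj
      have hb := hSB (hkN i' h').2.1
      have h1 := hbackB _ _ (hAB _ (hSA hu)) hadj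
      have h2 := hbackA _ _ (fun h'' => hAB _ h'' hb) h1.symm
      exact hno _ _ (Or.inr hb) (Or.inl (hSA hu)) h2
  rw [cnt_union_left H' d2, cnt_union_right H' (SA ∪ SB) d2, cnt_union_left H' d1 (SA ∪ SB),
    cnt_union_right H' SA d1, cnt_union_right H' SB d1, cnt_comm H' SB SA]
  refine arith (nA := (n - c) / 2) (nB := n - c - (n - c) / 2) (by omega) ?_ ?_
    (hcntA H' l' gA) (hcntB H' l' gB) (hSAc ▸ hcross)
  · have := cnt_le_mul H' T (T ∪ (SA ∪ SB))
    rwa [hcard, hTc] at this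
  · have := cnt_le_mul H' (SA ∪ SB) T
    rwa [Finset.card_union_of_disjoint d1, hSAc, hSBc, hTc] at this

theorem Q_all [Fintype W] {G K : SimpleGraph W} {lG : Sym2 W → ℝ} {a b : W}
    {j s : ℕ} (hab : a ≠ b) (hjs : j < s)
    (hlow : ∀ w w', K.Adj w w' → lG s(a, b) < lG s(w, w'))
    (hrob : ∀ t, ¬ Kill G lG (Pat K a b j) t) :
    ∃ D, ∀ d, Q G lG (Pat K a b (j + 1)) s D d := by
  classical
  refine ⟨2 * ((Finset.univ.filter (· ≠ b)) ×ˢ Finset.range s).card + 2 * s, fun d => ?_⟩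
  induction d with
  | zero => exact Q_zero _ _ _ _ _
  | succ d ih => exact Q_succ hab hjs hlow hrob rfl ih

end Pool.Agent.MP_9b0ed7_co.H36
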