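import Mathlib
import Pool.Agent.MP_9b0ed7_co.H36.Defs
import Pool.Agent.MP_9b0ed7_co.H36.Step

set_option autoImplicit false

namespace Pool.Agent.MP_9b0ed7_co.H36

open Pool.Agent.MP_9b0ed7_co.H41 SimpleGraph

variable {V W : Type}

open Classical in
/-- Greedy addition of lowest edges. -/
theorem exists_minSaturated [Fintype V] [Fintype W] {G : SimpleGraph W} {lG : Sym2 W → ℝ}
    (hc : Fintype.card W ≤ Fintype.card V) {H0 : SimpleGraph V} {l0 : Sym2 V → ℝ}
    (hv : EdgeOrdered H0 l0) (hf : ¬ WC H0 l0 G lG) :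
    ∃ (H : SimpleGraph V) (l : Sym2 V → ℝ), EdgeOrdered H l ∧ MinSaturated H l G lG ∧
      ¬ WC H l G lG ∧ (∀ x y, H0.Adj x y → H.Adj x y ∧ l s(x, y) = l0 s(x, y)) ∧
      ∀ x y x' y', H.Adj x y → ¬ H0.Adj x y → H0.Adj x' y' → l s(x, y) < l s(x', y') := by
  let S : Set (SimpleGraph V) :=
    {H | ∃ l : Sym2 V → ℝ, EdgeOrdered H l ∧ ¬ WC H l G lG ∧
      (∀ x y, H0.Adj x y → H.Adj x y ∧ l s(x, y) = l0 s(x, y)) ∧
      ∀ x y x' y', H.Adj x y → ¬ H0.Adj x y → H0.Adj x' y' → l s(x, y) < l s(x', y')}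
  have hS : S.Nonempty := ⟨H0, l0, hv, hf, fun _ _ h => ⟨h, rfl⟩,
    fun _ _ _ _ h h' => absurd h h'⟩
  obtain ⟨H, ⟨l, h1, h2, h3, h4⟩, hmax⟩ := (wellFounded_gt (α := SimpleGraph V)).has_min S hS
  refine ⟨H, l, h1, ⟨fun h => h2 h.wc, ?_⟩, h2, h3, h4⟩
  intro u v huv hadj x hx
  apply WC.contains hc
  by_contra hcon
  have hne : ∀ a b, H.Adj a b → s(a, b) ≠ s(u, v) := by
    intro a b hab h
    apply hadj
    have : s(u, v) ∈ H.edgeSet := h ▸ hab
    exact this
  have hup : ∀ a b, H.Adj a b → Function.update l s(u, v) x s(a, b) = l s(a, b) :=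
    fun a b hab => Function.update_of_ne (hne a b hab) _ _
  have hcases : ∀ a b, (H ⊔ edge u v).Adj a b → H.Adj a b ∨ s(a, b) = s(u, v) := by
    intro a b hab
    rcases hab with h | h
    · exact Or.inl h
    · right
      rw [edge_adj] at h
      rcases h.1 with ⟨rfl, rfl⟩ | ⟨rfl, rfl⟩
      · rfl
      · exact Sym2.eq_swap
  apply hmax (H ⊔ edge u v) ⟨Function.update l s(u, v) x, ?_, hcon, ?_, ?_⟩
  · refine lt_of_le_of_ne le_sup_left ?_
    intro h
    apply hadj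
    rw [h]
    right
    rw [edge_adj]
    exact ⟨Or.inl ⟨rfl, rfl⟩, huv⟩
  · apply edgeOrdered_of
    intro a b c d hab hcd hl
    rcases hcases a b hab with h | h <;> rcases hcases c d hcd with h' | h'
    · rw [hup a b h, hup c d h'] at hl
      exact h1.eq_of h h' hl
    · rw [hup a b h, h', Function.update_self] at hl
      exact absurd hl (hx _ h).ne'
    · rw [hup c d h', h, Function.update_self] at hl
      exact absurd hl (hx _ h').ne
    · rw [h, h']
  · intro a b h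
    exact ⟨Or.inl (h3 a b h).1, (hup a b (h3 a b h).1).trans (h3 a b h).2⟩
  · intro a b c d hab hn hcd
    rw [hup c d (h3 c d hcd).1]
    rcases hcases a b hab with h | h
    · rw [hup a b h]
      exact h4 a b c d h hn hcd
    · rw [h, Function.update_self]
      exact hx _ (h3 c d hcd).1

theorem ncard_le_cnt {n : ℕ} (H : SimpleGraph (Fin n)) {φ : Fin n → ℕ}
    (hφ : Function.Injective φ) {Z : Finset ℕ} (hZ : ∀ i, φ i ∈ Z) :
    H.edgeSet.ncard ≤ cnt (pushG φ H) Z Z := by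
  classical
  have h1 : H.edgeSet ⊆ (fun p : Fin n × Fin n => s(p.1, p.2)) ''
      ((Finset.univ.filter fun p : Fin n × Fin n => H.Adj p.1 p.2 : Finset _) : Set _) := by
    intro e he
    induction e using Sym2.ind with
    | _ a b => exact ⟨(a, b), by simpa using he, rfl⟩
  refine (Set.ncard_le_ncard h1 (Set.toFinite _)).trans
    ((Set.ncard_image_le (Finset.finite_toSet _)).trans ?_)
  rw [Set.ncard_coe_finset]
  have h2 : cnt (pushG φ H) Z Z =
      ((Z ×ˢ Z).filter fun p : ℕ × ℕ => (pushG φ H).Adj p.1 p.2).card := by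
    unfold cnt
    rw [Finset.card_filter, Finset.sum_product]
  rw [h2]
  refine Finset.card_le_card_of_injOn (fun p => (φ p.1, φ p.2)) ?_ ?_
  · intro p hp
    simp only [Finset.coe_filter, Finset.mem_univ, true_and, Set.mem_setOf_eq] at hp
    simp only [Finset.coe_filter, Finset.mem_product, Set.mem_setOf_eq]
    exact ⟨⟨hZ _, hZ _⟩, pushG_adj hφ hp⟩
  · intro p _ q _ e
    simp only [Prod.mk.injEq] at e
    exact Prod.ext (hφ e.1) (hφ e.2)

theorem nat_bound [Fintype W] {G : SimpleGraph W} {lG : Sym2 W → ℝ} (hG : EdgeOrdered G lG)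
    (hne : ∃ a b, G.Adj a b) :
    ∃ C n₀ : ℕ, ∀ n ≥ n₀, ∃ (H : SimpleGraph (Fin n)) (lH : Sym2 (Fin n) → ℝ),
      EdgeOrdered H lH ∧ MinSaturated H lH G lG ∧
        H.edgeSet.ncard ≤ C * n * (Nat.log 2 n + 1) := by
  classical
  obtain ⟨K, a, b, j, s, hab, hjs, hlow, hrob, h, hkill⟩ := exists_critical hG hne
  obtain ⟨D, hD⟩ := Q_all hab hjs hlow hrob
  refine ⟨2 * h + D, max h (Fintype.card W), fun n hn => ?_⟩
  obtain ⟨F, hF⟩ := hD (Nat.log 2 n + 1) h
  obtain ⟨H, l, U, L, hc, hU, hL, hk⟩ := hkill F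
  have hUn : U.card ≤ n := hU.trans ((le_max_left _ _).trans hn)
  obtain ⟨S, H₁, l₁, hS, hSc, heo, hfree, hext, -, hcnt⟩ := hF (n - U.card)
    (lt_of_le_of_lt (Nat.sub_le _ _) (Nat.lt_pow_succ_log_self (by norm_num) n)) H l U L hc hU hL
  have hd : Disjoint U S := Finset.disjoint_left.2 fun x hx hx' => hc.disj x hx (hS hx')
  have hZ : (U ∪ S).card = n := by
    rw [Finset.card_union_of_disjoint hd]
    omega
  let φ : Fin n → ℕ := fun i => (U ∪ S).orderEmbOfFin hZ i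
  have hφ : Function.Injective φ := ((U ∪ S).orderEmbOfFin hZ).injective
  have hφm : ∀ i, φ i ∈ U ∪ S := fun i => Finset.orderEmbOfFin_mem _ _ i
  have hφs : ∀ x ∈ U ∪ S, ∃ i, φ i = x := by
    intro x hx
    have : x ∈ Set.range ((U ∪ S).orderEmbOfFin hZ) := by
      rw [Finset.range_orderEmbOfFin]
      exact hx
    exact this
  obtain ⟨H₃, l₃, heo3, hsat, hfree3, hold, hnew⟩ := exists_minSaturated (G := G) (lG := lG)
    (V := Fin n) (by rw [Fintype.card_fin]; exact (le_max_right _ _).trans hn)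
    (H0 := H₁.comap φ) (l0 := l₁ ∘ Sym2.map φ)
    (edgeOrdered_pullback heo hφ fun _ _ h => h)
    (fun hw => hfree (hw.emb (emb_pullback l₁ hφ fun _ _ h => h)))
  refine ⟨H₃, l₃, heo3, hsat, (ncard_le_cnt H₃ hφ hφm).trans ?_⟩
  have hback : ∀ i i', (pushG φ H₃).Adj (φ i) (φ i') → H₃.Adj i i' := by
    rintro i i' ⟨-, u, v, huv, e1, e2⟩
    rwa [← hφ e1, ← hφ e2]
  have hext2 : Ext H₁ l₁ (pushG φ H₃) (pushL φ l₃) (· ∈ U ∪ S) := by
    intro x y hx hy hxy
    obtain ⟨i, rfl⟩ := hφs x hx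
    obtain ⟨i', rfl⟩ := hφs y hy
    obtain ⟨h1, h2⟩ := hold i i' hxy
    refine ⟨pushG_adj hφ h1, ?_⟩
    rw [pushL_apply hφ, h2]
    simp
  have hgood : Good lG (Pat K a b (j + 1)) s H₁ l₁ (pushG φ H₃) (pushL φ l₃) S := by
    refine ⟨hext2.mono fun x hx => Finset.mem_union_right _ hx, ?_, ?_⟩
    · intro x y x' y' hx hy hx' hy' h1 h2 h3
      obtain ⟨i, rfl⟩ := hφs x (Finset.mem_union_right _ hx)
      obtain ⟨i', rfl⟩ := hφs y (Finset.mem_union_right _ hy)
      obtain ⟨k, rfl⟩ := hφs x' (Finset.mem_union_right _ hx')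
      obtain ⟨k', rfl⟩ := hφs y' (Finset.mem_union_right _ hy')
      rw [pushL_apply hφ, pushL_apply hφ]
      exact hnew i i' k k' (hback _ _ h1) h2 h3
    · intro π hπ hpl
      refine hfree3 (wc_push hφ heo3 hne (hk _ _ π (edgeOrdered_push hφ heo3)
        (fun p hp => hS (hπ p hp)) ?_ hpl))
      refine (hext.mono ?_).trans (hext2.mono ?_)
      · rintro x (hx | ⟨p, hp, rfl⟩)
        · exact Or.inl hx
        · exact Or.inr (hπ p hp)
      · rintro x (hx | ⟨p, hp, rfl⟩)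
        · exact Finset.mem_union_left _ hx
        · exact Finset.mem_union_right _ (hπ p hp)
  have c1 := hcnt _ _ hgood
  have c2 := cnt_le_mul (pushG φ H₃) U (U ∪ S)
  have c3 := cnt_le_mul (pushG φ H₃) S U
  rw [cnt_union_left _ hd, cnt_union_right _ S hd]
  rw [hZ] at c2
  have c4 : S.card ≤ n := by omega
  have c5 : U.card * n ≤ h * n := Nat.mul_le_mul_right n hU
  have c6 : S.card * U.card ≤ n * h := Nat.mul_le_mul c4 hU
  have c7 : D * (n - U.card) * (Nat.log 2 n + 1) ≤ D * n * (Nat.log 2 n + 1) :=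
    Nat.mul_le_mul_right _ (Nat.mul_le_mul_left _ (Nat.sub_le _ _))
  nlinarith [Nat.zero_le (h * n * Nat.log 2 n)]

theorem main [Fintype W] {G : SimpleGraph W} {lG : Sym2 W → ℝ} (hG : EdgeOrdered G lG)
    (hne : ∃ a b, G.Adj a b) :
    ∃ (C : ℝ) (n₀ : ℕ), ∀ n ≥ n₀, ∃ (H : SimpleGraph (Fin n)) (lH : Sym2 (Fin n) → ℝ),
      EdgeOrdered H lH ∧ MinSaturated H lH G lG ∧
        (H.edgeSet.ncard : ℝ) ≤ C * n * Real.log n := by
  obtain ⟨C, n₀, h⟩ := nat_bound hG hne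
  refine ⟨C * (2 / Real.log 2), max n₀ 2, fun n hn => ?_⟩
  obtain ⟨H, lH, h1, h2, h3⟩ := h n ((le_max_left _ _).trans hn)
  refine ⟨H, lH, h1, h2, ?_⟩
  have hn2 : 2 ≤ n := (le_max_right _ _).trans hn
  have hl2 : 0 < Real.log 2 := Real.log_pos (by norm_num)
  have hpow : (2 : ℝ) ^ Nat.log 2 n ≤ n := by
    exact_mod_cast Nat.pow_log_le_self 2 (by omega : n ≠ 0)
  have e1 : (Nat.log 2 n : ℝ) * Real.log 2 ≤ Real.log n := by
    rw [← Real.log_pow]
    exact Real.log_le_log (by positivity) hpow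
  have e2 : Real.log 2 ≤ Real.log n :=
    Real.log_le_log (by norm_num) (by exact_mod_cast hn2)
  have e3 : (Nat.log 2 n : ℝ) + 1 ≤ 2 / Real.log 2 * Real.log n := by
    rw [div_mul_eq_mul_div, le_div_iff₀ hl2]
    linarith
  have e4 : (H.edgeSet.ncard : ℝ) ≤ C * n * ((Nat.log 2 n : ℝ) + 1) := by exact_mod_cast h3
  calc (H.edgeSet.ncard : ℝ) ≤ C * n * ((Nat.log 2 n : ℝ) + 1) := e4
    _ ≤ C * n * (2 / Real.log 2 * Real.log n) := by gcongr
    _ = C * (2 / Real.log 2) * n * Real.log n := by ring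

end Pool.Agent.MP_9b0ed7_co.H36
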